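import Pool.Agent.K1H76.OM.Stm

/-! Project OM, piece FC: the Fourier coefficients of `G`. -/

set_option autoImplicit false

namespace Pool.Agent.K1H28.OM

open Pool.Agent.K1H76.OM Filter Topology MeasureTheory

theorem sk_eq (k : ℤ) : sk k = 1 + Complex.I * ((Real.pi * (2 * k + 1) / Real.log 2 : ℝ) : ℂ) := by
  unfold sk
  push_cast
  rfl

theorem sk_re (k : ℤ) : (sk k).re = 1 := by
  rw [sk_eq, Complex.add_re, Complex.I_mul_re, Complex.ofReal_im]
  simp

theorem sk_im (k : ℤ) : (sk k).im ≠ 0 := by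
  rw [sk_eq, Complex.add_im, Complex.I_mul_im, Complex.ofReal_re]
  have h1 : (2 * k + 1 : ℤ) ≠ 0 := by omega
  have h2 : (2 * (k : ℝ) + 1) ≠ 0 := by exact_mod_cast h1
  have h3 : Real.log 2 ≠ 0 := (Real.log_pos (by norm_num)).ne'
  simp only [Complex.one_im, zero_add]
  exact div_ne_zero (mul_ne_zero Real.pi_ne_zero h2) h3

theorem two_cpow (k : ℤ) : (2 : ℂ) ^ (-(sk k)) = -(1 / 2) := by
  have hl : Real.log 2 ≠ 0 := (Real.log_pos (by norm_num)).ne'
  have hlc : (Real.log 2 : ℂ) ≠ 0 := by exact_mod_cast hl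
  have h1 : Complex.log 2 = (Real.log 2 : ℂ) := by
    have := Complex.ofReal_log (show (0 : ℝ) ≤ 2 by norm_num)
    rw [this]
    norm_num
  rw [Complex.cpow_def_of_ne_zero two_ne_zero, h1]
  have h2 : (Real.log 2 : ℂ) * -(sk k) =
      -(Real.log 2 : ℂ) + (((-k - 1 : ℤ) : ℂ) * (2 * Real.pi * Complex.I) +
        Real.pi * Complex.I) := by
    unfold sk
    push_cast
    field_simp
    ring
  rw [h2, Complex.exp_add, Complex.exp_add, Complex.exp_int_mul_two_pi_mul_I,
    Complex.exp_pi_mul_I, Complex.exp_neg, ← Complex.ofReal_exp,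
    Real.exp_log (by norm_num : (0 : ℝ) < 2)]
  push_cast
  ring

/-- **FC.** -/
theorem t_FC (h1 : S_F1) (h2 : S_F2) (h3 : S_F3) (h4 : S_F4) : S_FC := by
  intro k
  rw [(h1 k).2]
  have hre := sk_re k
  have him := sk_im k
  have h2k := h2 k
  have htwo := two_cpow k
  set s := sk k with hs
  have hs0 : s ≠ 0 := by
    intro h
    rw [h] at him
    exact him rfl
  have hs1 : s ≠ 1 := by
    intro h
    rw [h] at him
    exact him rfl
  have hζ : riemannZeta s ≠ 0 := riemannZeta_ne_zero_of_one_le_re (by rw [hre])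
  rw [(h4 s (by rw [hre]; norm_num)).2.tprod_eq]
  -- continuity
  have hL : ContinuousAt (LSeries fun n => (ho n : ℂ)) s := by
    have h5 : LSeries.abscissaOfAbsConv (fun n => (ho n : ℂ)) < s.re := by
      have h6 := (h4 ((19 / 20 : ℝ) : ℂ) (by rw [Complex.ofReal_re]; norm_num)).1
      refine lt_of_le_of_lt h6.abscissaOfAbsConv_le ?_
      rw [hre, Complex.ofReal_re]
      norm_cast
      norm_num
    exact (LSeries_hasDerivAt h5).continuousAt
  have hD : ContinuousAt (fun z : ℂ => (1 - 2 ^ (-z)) * riemannZeta z) s := by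
    refine ContinuousAt.mul ?_ (differentiableAt_riemannZeta hs1).continuousAt
    refine continuousAt_const.sub ?_
    exact (continuousAt_const_cpow two_ne_zero).comp continuousAt_neg
  have hDs : (1 - 2 ^ (-s)) * riemannZeta s ≠ 0 := by
    rw [htwo]
    refine mul_ne_zero ?_ hζ
    norm_num
  have hF : ContinuousAt (fun z : ℂ => LSeries (fun n => (ho n : ℂ)) z /
      (((1 - 2 ^ (-z)) * riemannZeta z) ^ 2 * z)) s := by
    refine hL.div ((hD.pow 2).mul continuousAt_id) ?_
    exact mul_ne_zero (pow_ne_zero 2 hDs) hs0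
  have hsh : Tendsto (fun δ : ℝ => s + (δ : ℂ)) (𝓝[>] 0) (𝓝 s) := by
    have h5 : Continuous fun δ : ℝ => s + (δ : ℂ) := by fun_prop
    have h6 := h5.tendsto 0
    simp only [Complex.ofReal_zero, add_zero] at h6
    exact h6.mono_left nhdsWithin_le_nhds
  have hlim := (ContinuousAt.tendsto hF).comp hsh
  have hev : (fun δ : ℝ => LSeries (fun n => (ao n : ℂ)) (s + δ) / (s + δ)) =ᶠ[𝓝[>] 0]
      ((fun z : ℂ => LSeries (fun n => (ho n : ℂ)) z /
      (((1 - 2 ^ (-z)) * riemannZeta z) ^ 2 * z)) ∘ fun δ : ℝ => s + (δ : ℂ)) := by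
    have h5 := hsh.eventually (hD.eventually_ne hDs)
    filter_upwards [h5, self_mem_nhdsWithin] with δ hδ hδ0
    have h6 := (h3 (s + δ) (by
      rw [Complex.add_re, hre, Complex.ofReal_re]
      have : (0 : ℝ) < δ := hδ0
      linarith)).2
    simp only [Function.comp_apply]
    rw [← h6, mul_comm (LSeries _ _), mul_div_mul_left _ _ (pow_ne_zero 2 hδ)]
  have hfin := tendsto_nhds_unique h2k (hlim.congr' hev.symm)
  rw [hfin, htwo]
  field_simp
  ring

end Pool.Agent.K1H28.OM
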